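import Pool.Agent.helper13.U4.SpecY

set_option autoImplicit false

namespace Pool.Agent.U4

open Pool.Agent.UL

theorem GRW (h1 : KIL_stmt) : GRW_stmt := by
  intro h v T T' x y hh hv hT hone hyr hTT hcase hodd heven hbase t ht
  induction t, ht using Nat.le_induction with
  | base =>
    intro _ r hr _
    exact hbase r hr
  | succ t ht ih =>
    intro ht'
    refine h1 h v T (t + 1) x y hh hv hT hone hyr (by omega) (by omega) (by omega)
      (fun h2 => hodd (t + 1) (by omega) ht' h2) (fun h2 => heven (t + 1) (by omega) ht' h2) ?_
    intro r hr hr'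
    exact ih (by omega) r hr hr'

end Pool.Agent.U4
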