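import Pool.Agent.helper13.U4.SpecY

set_option autoImplicit false

namespace Pool.Agent.U4

open Pool.Agent.UL

theorem STB_ex (a : Bool) : ex1 a false false = a := by
  cases a <;> rfl

/-- the statement of the induction -/
def STB_P (y : ℕ → ℕ → Bool) (j : ℕ) : Prop :=
  (∀ u < 2 * j, u % 2 = 1 → y u (4 * j + 1) = y (u + 1) (4 * j + 1)) ∧
    ∀ t, 1 ≤ t → t ≤ 2 * j → y t (4 * j + 2) = false

theorem STB_app (h1 : STA_stmt) {h : ℕ} {y : ℕ → ℕ → Bool} (hy : SC h y) {j : ℕ} (hj1 : 1 ≤ j)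
    (hj : 2 * j ≤ h) (hP : STB_P y j) :
    y (2 * j) (4 * j) = false ∧ (2 ≤ j → STB_P y (j - 1)) := by
  obtain ⟨i, rfl⟩ : ∃ i, j = i + 1 := ⟨j - 1, by omega⟩
  have e1 : 4 * (i + 1) + 1 = 4 * i + 5 := by ring
  have e2 : 4 * (i + 1) + 2 = 4 * i + 6 := by ring
  have e3 : 4 * (i + 1) = 4 * i + 4 := by ring
  have e4 : 2 * (i + 1) = 2 * i + 2 := by ring
  unfold STB_P at hP
  rw [e1, e2, e4] at hP
  rw [e4] at hj
  rw [e3, e4]
  obtain ⟨hP1, hP2⟩ := hP
  have hrec : ∀ t < 2 * i + 2, ∀ r ≤ 4 * i + 4,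
      y t r = ex1 (y (t + 1) r) (y (t + 1) (r + 1)) (y (t + 1) (r + 2)) := fun t ht r hr =>
    hy.rc t (by omega) r (by omega)
  have hsta := h1 (2 * i + 2) (fun t => y t (4 * i + 5)) (fun t => y t (4 * i + 4))
    (fun t => y t (4 * i + 3)) (fun t => y t (4 * i + 2)) (fun t => y t (4 * i + 1))
    (fun t => y t (4 * i)) (by omega) (by omega)
    (by
      intro t ht
      have h2 := hrec t ht (4 * i + 4) (by omega)
      have h3 := hP2 (t + 1) (by omega) (by omega)
      rw [h3] at h2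
      exact h2)
    (fun t ht => hrec t ht (4 * i + 3) (by omega))
    (fun t ht => hrec t ht (4 * i + 2) (by omega))
    (fun t ht => hrec t ht (4 * i + 1) (by omega))
    (fun t ht => hrec t ht (4 * i) (by omega))
    hP1
    (by
      have h2 := hy.z1 (i + 1) (by omega) (by omega)
      rw [e3] at h2
      exact h2)
    (by
      have h2 := (hy.z2 (2 * i + 2) (by omega) (by omega) hj).1
      have h3 : 2 * (2 * i + 2) - 1 = 4 * i + 3 := by omega
      rw [h3] at h2
      exact h2)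
  obtain ⟨a1, a2⟩ := hsta
  refine ⟨a1 (2 * i + 2) le_rfl (by omega), ?_⟩
  intro hj2
  obtain ⟨b1, b2, b3, b4⟩ := hy.z2 (2 * i) (by omega) (by omega) (by omega)
  have h5 := hy.z1 i (by omega) (by omega)
  have e5 : 2 * (2 * i) = 4 * i := by ring
  rw [e5] at b3 b4
  have e6 : 2 * i + 2 - 1 = 2 * i + 1 := by omega
  obtain ⟨c1, c2⟩ := a2
    (by
      simp only [e6]
      exact b4)
    (by
      simp only [e6]
      exact b3) h5
  have e7 : i + 1 - 1 = i := by omega
  rw [e7]
  refine ⟨fun u hu hu2 => c2 u (by omega) hu2, fun t ht1 ht2 => c1 t (by omega)⟩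

theorem STB (h1 : STA_stmt) : STB_stmt := by
  intro h y hh4 hh2 hy
  have hbase : STB_P y (h / 2) := by
    have e1 : 4 * (h / 2) = 2 * h := by omega
    have e2 : 2 * (h / 2) = h := by omega
    unfold STB_P
    rw [e1, e2]
    refine ⟨fun u hu hu2 => ?_, fun t ht1 ht2 => hy.z3 t ht1 ht2⟩
    have h2 := hy.rc u (by omega) (2 * h + 1) le_rfl
    have h3 := hy.z3 (u + 1) (by omega) (by omega)
    have h4 := hy.z3' (u + 1) (by omega) (by omega) (by omega)
    have e3 : 2 * h + 1 + 1 = 2 * h + 2 := by ring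
    have e4 : 2 * h + 1 + 2 = 2 * h + 3 := by ring
    rw [e3, e4, h3, h4, STB_ex] at h2
    exact h2
  have hind : ∀ i j, j + i = h / 2 → 1 ≤ j → STB_P y j := by
    intro i
    induction i with
    | zero =>
      intro j hj _
      rw [add_zero] at hj
      rw [hj]
      exact hbase
    | succ i ih =>
      intro j hj hj1
      have h2 := ih (j + 1) (by omega) (by omega)
      have h3 := (STB_app h1 hy (j := j + 1) (by omega) (by omega) h2).2 (by omega)
      have e : j + 1 - 1 = j := by omega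
      rwa [e] at h3
  intro j hj1 hj
  exact (STB_app h1 hy hj1 hj (hind (h / 2 - j) j (by omega) hj1)).1

end Pool.Agent.U4
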